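import Mathlib
import Pool.Agent.W42.RG.Defs

set_option autoImplicit false

namespace Pool.Agent.W215.LX

open Pool.Agent.W42.RG Filter Topology

lemma scal (a : ℕ → ℝ) (s₀ : ℝ) (h0 : 0 < s₀)
    (h : ∀ s : ℝ, |s| ≤ s₀ → HasSum (fun l : ℕ => s ^ l * a l) 0) : a = 0 := by
  have h1 : HasFPowerSeriesAt (0 : ℝ → ℝ) (FormalMultilinearSeries.ofScalars ℝ a) (0 : ℝ) := by
    rw [hasFPowerSeriesAt_iff]
    have h2 : ∀ᶠ z : ℝ in 𝓝 0, |z| < s₀ := by
      have : Metric.ball (0 : ℝ) s₀ ∈ 𝓝 (0 : ℝ) := Metric.ball_mem_nhds _ h0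
      filter_upwards [this] with z hz
      simpa using hz
    filter_upwards [h2] with z hz
    have := h z hz.le
    simpa [FormalMultilinearSeries.coeff_ofScalars] using this
  have h2 := h1.eq_zero
  funext n
  have h3 : (FormalMultilinearSeries.ofScalars ℝ a).coeff n = 0 := by
    rw [h2]; simp [FormalMultilinearSeries.coeff]
  rwa [FormalMultilinearSeries.coeff_ofScalars] at h3

theorem t_DER : S_DER := by
  intro V _ _ _ _ _ _ _ N S Z s₀ h0 h
  by_contra hc
  obtain ⟨φ, hφ, hφ2⟩ := Submodule.exists_le_ker_of_notMem hc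
  have hcont : Continuous φ := φ.continuous_of_finiteDimensional
  have key := scal (fun l => ((l.factorial : ℝ)⁻¹) * φ ((N ^ l) Z)) s₀ h0 (by
    intro s hs
    obtain ⟨Z', hZ', hsum⟩ := h s hs
    have h1 := hsum.map φ hcont
    have h2 : φ Z' = 0 := hφ2 hZ'
    rw [h2] at h1
    convert h1 using 1
    funext l
    simp only [Function.comp, map_smul, smul_pow, LinearMap.smul_apply, smul_eq_mul]
    ring)
  have := congrFun key 1
  simp at this
  exact hφ this

end Pool.Agent.W215.LX
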