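import Mathlib
import Pool.Agent.W42.RG.Defs

set_option autoImplicit false

/-!
Basic facts on isometric actions of Lie groups in exponential coordinates.
-/

namespace Pool.Agent.W215.LX

open Pool.Agent.W42.RG Filter Topology

variable {V M : Type} [NormedAddCommGroup V] [NormedSpace ℝ V]
  [MetricSpace M] {br : V →L[ℝ] V →L[ℝ] V} {Φ : V → M → M}

lemma neg_act (h : Iso br Φ) (X : V) (p : M) : Φ (-X) (Φ X p) = p := by
  have := h.line X (-1) 1 p
  rw [neg_add_cancel, zero_smul, h.zero, neg_one_smul, one_smul] at this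
  exact this.symm

lemma act_neg (h : Iso br Φ) (X : V) (p : M) : Φ X (Φ (-X) p) = p := by
  simpa using neg_act h (-X) p

lemma act_inj (h : Iso br Φ) (X : V) {p q : M} (e : Φ X p = Φ X q) : p = q := by
  rw [← neg_act h X p, e, neg_act h X q]

lemma act_iter (h : Iso br Φ) (X : V) (p : M) (n : ℕ) : Φ ((n : ℝ) • X) p = (Φ X)^[n] p := by
  induction n with
  | zero => simp [h.zero]
  | succ n ih =>
    rw [Function.iterate_succ_apply', ← ih]
    have := h.line X 1 n p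
    rw [one_smul] at this
    rw [← this]
    push_cast
    rw [add_comm]

lemma st_conj (h : Iso br Φ) (X Z : V) (p : M) :
    Z ∈ st Φ (Φ X p) ↔ NormedSpace.exp (br (-X)) Z ∈ st Φ p := by
  have key : ∀ t : ℝ, Φ (-X) (Φ (t • Z) (Φ X p)) = Φ (t • NormedSpace.exp (br (-X)) Z) p := by
    intro t
    rw [h.conj, neg_act h, map_smul]
  constructor
  · intro hz t
    have := hz t
    rw [← key, this, neg_act h]
  · intro hz t
    apply act_inj h (-X)
    rw [key, neg_act h]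
    exact hz t

lemma exp_mem [FiniteDimensional ℝ V] (A : V →L[ℝ] V) (S : Submodule ℝ V)
    (hS : ∀ Z ∈ S, A Z ∈ S) (Z : V) (hZ : Z ∈ S) : NormedSpace.exp A Z ∈ S := by
  have hc : IsClosed (S : Set V) := S.closed_of_finiteDimensional
  have h1 : HasSum (fun n : ℕ => ((n.factorial : ℝ)⁻¹) • A ^ n) (NormedSpace.exp A) :=
    NormedSpace.exp_series_hasSum_exp' (𝕂 := ℝ) A
  have h2 := h1.mapL (ContinuousLinearMap.apply ℝ V Z)
  have h3 : ∀ n : ℕ, (A ^ n) Z ∈ S := by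
    intro n
    induction n with
    | zero => simpa using hZ
    | succ n ih =>
      rw [pow_succ']
      exact hS _ ih
  refine hc.mem_of_tendsto h2 (Eventually.of_forall fun s => S.sum_mem fun n _ => ?_)
  exact S.smul_mem _ (h3 n)

lemma exp_inv [FiniteDimensional ℝ V] (A : V →L[ℝ] V) (Z : V) :
    NormedSpace.exp A (NormedSpace.exp (-A) Z) = Z := by
  letI : NormedAlgebra ℚ (V →L[ℝ] V) := NormedAlgebra.restrictScalars ℚ ℝ (V →L[ℝ] V)
  have h1 : NormedSpace.exp A * NormedSpace.exp (-A) = 1 := by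
    rw [← NormedSpace.exp_add_of_commute (Commute.neg_right (Commute.refl A)), add_neg_cancel,
      NormedSpace.exp_zero]
  have := congrArg (fun B : V →L[ℝ] V => B Z) h1
  simpa using this

lemma loc' (h : Iso br Φ) : ∃ D ρ : ℝ, 0 ≤ D ∧ 0 < ρ ∧ ∀ Y Z : V, ‖Y‖ ≤ ρ → ‖Z‖ ≤ ρ →
    ∃ U : V, ‖U - Y - Z‖ ≤ D * ‖Y‖ * ‖Z‖ ∧ ∀ p : M, Φ Y (Φ Z p) = Φ U p := by
  obtain ⟨C, ρ, hρ, hl⟩ := h.loc
  refine ⟨|C| * ‖br‖, ρ, by positivity, hρ, fun Y Z hY hZ => ?_⟩
  obtain ⟨U, hU, hU2⟩ := hl Y Z hY hZ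
  refine ⟨U, hU.trans ?_, hU2⟩
  calc C * ‖br Y Z‖ ≤ |C| * (‖br‖ * ‖Y‖ * ‖Z‖) :=
        mul_le_mul (le_abs_self C) (br.le_opNorm₂ Y Z) (norm_nonneg _) (abs_nonneg _)
    _ = _ := by ring

/-- elements which normalise the stabiliser -/
lemma norm_st [FiniteDimensional ℝ V] (h : Iso br Φ) (ψ : M) (S : Submodule ℝ V)
    (hS : (S : Set V) = st Φ ψ) (W : V) (hN : ∀ Z ∈ S, br W Z ∈ S) (a : ℝ) (H' : V)
    (hH' : H' ∈ S) : Φ H' (Φ (a • W) ψ) = Φ (a • W) ψ := by
  have h2 : NormedSpace.exp (-(br (a • W))) H' ∈ S := exp_mem _ S (by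
    intro Z hZ
    rw [map_smul]
    exact S.neg_mem (S.smul_mem _ (hN Z hZ))) _ hH'
  have h3 := h.conj (a • W) (NormedSpace.exp (-(br (a • W))) H') ψ
  have h4 : Φ (NormedSpace.exp (-(br (a • W))) H') ψ = ψ := by
    have h5 : NormedSpace.exp (-(br (a • W))) H' ∈ st Φ ψ := by rw [← hS]; exact h2
    have := h5 1
    rwa [one_smul] at this
  rw [h4, exp_inv] at h3
  exact h3.symm

end Pool.Agent.W215.LX
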