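import Mathlib
import Pool.Agent.W42.RG.Defs
import Pool.Agent.W215.LX.Iso

set_option autoImplicit false

/-!
Part FIN: an element which normalises the stabilisers of the points near `p` and stabilises `p`
stabilises the points near `p`.
-/

namespace Pool.Agent.W215.LX

open Pool.Agent.W42.RG Filter Topology

variable {V M : Type} [NormedAddCommGroup V] [NormedSpace ℝ V] [FiniteDimensional ℝ V]
  [MetricSpace M] {br : V →L[ℝ] V →L[ℝ] V} {Φ : V → M → M}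

lemma claimA (h : Iso br Φ) (ψ : M) (S : Submodule ℝ V) (hS : (S : Set V) = st Φ ψ) (W : V)
    (hN : ∀ Z ∈ S, br W Z ∈ S) (H : V) (hH : H ∈ S) (t : ℝ) :
    Φ (t • (W - H)) ψ = Φ (t • W) ψ := by
  obtain ⟨D, ρ, hD, hρ, hl⟩ := loc' h
  have hlim : ∀ X : V, Tendsto (fun n : ℕ => ‖((t / (n : ℝ)) • X)‖) atTop (𝓝 0) := by
    intro X
    have h1 : Tendsto (fun n : ℕ => t / (n : ℝ)) atTop (𝓝 0) :=
      tendsto_const_div_atTop_nhds_zero_nat t
    have h2 := (h1.smul_const X).norm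
    simpa using h2
  have hev : ∀ᶠ n : ℕ in atTop, 1 ≤ n ∧ ‖(t / (n : ℝ)) • W‖ ≤ ρ ∧ ‖(t / (n : ℝ)) • (-H)‖ ≤ ρ := by
    filter_upwards [eventually_ge_atTop 1, (hlim W).eventually_lt_const hρ,
      (hlim (-H)).eventually_lt_const hρ] with n h1 h2 h3
    exact ⟨h1, h2.le, h3.le⟩
  have h6 : ∀ n : ℕ, ∃ U : V, (1 ≤ n ∧ ‖(t / (n : ℝ)) • W‖ ≤ ρ ∧ ‖(t / (n : ℝ)) • (-H)‖ ≤ ρ) →
      ‖(n : ℝ) • U - t • (W - H)‖ ≤ D * ‖t • W‖ * ‖t • H‖ * (n : ℝ)⁻¹ ∧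
        Φ ((n : ℝ) • U) ψ = Φ (t • W) ψ := by
    intro n
    by_cases hn : 1 ≤ n ∧ ‖(t / (n : ℝ)) • W‖ ≤ ρ ∧ ‖(t / (n : ℝ)) • (-H)‖ ≤ ρ
    · obtain ⟨h1, h2, h3⟩ := hn
      obtain ⟨U, hU, hU2⟩ := hl _ _ h2 h3
      have hn0 : (0 : ℝ) < n := by exact_mod_cast h1
      refine ⟨U, fun _ => ⟨?_, ?_⟩⟩
      · have e1 : (n : ℝ) • U - t • (W - H) =
            (n : ℝ) • (U - (t / (n : ℝ)) • W - (t / (n : ℝ)) • (-H)) := by
          have e0 : (n : ℝ) * (t / n) = t := mul_div_cancel₀ _ hn0.ne'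
          simp only [smul_sub, smul_smul, e0, smul_neg]
          abel
        rw [e1, norm_smul, Real.norm_of_nonneg hn0.le]
        have e2 : ‖(t / (n : ℝ)) • W‖ = ‖t • W‖ * (n : ℝ)⁻¹ := by
          rw [norm_smul, norm_smul, norm_div, Real.norm_of_nonneg hn0.le]
          ring
        have e3 : ‖(t / (n : ℝ)) • (-H)‖ = ‖t • H‖ * (n : ℝ)⁻¹ := by
          rw [norm_smul, norm_smul, norm_div, Real.norm_of_nonneg hn0.le, norm_neg]
          ring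
        rw [e2, e3] at hU
        calc (n : ℝ) * ‖U - (t / (n : ℝ)) • W - (t / (n : ℝ)) • (-H)‖
            ≤ (n : ℝ) * (D * (‖t • W‖ * (n : ℝ)⁻¹) * (‖t • H‖ * (n : ℝ)⁻¹)) :=
              mul_le_mul_of_nonneg_left hU hn0.le
          _ = D * ‖t • W‖ * ‖t • H‖ * (n : ℝ)⁻¹ := by field_simp
      · have hj : ∀ j : ℕ, (Φ U)^[j] ψ = Φ (((j : ℝ) * (t / n)) • W) ψ := by
          intro j
          induction j with
          | zero => simp [h.zero]
          | succ j ih =>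
            rw [Function.iterate_succ_apply', ih, ← hU2]
            have h4 : (t / (n : ℝ)) • (-H) ∈ S := S.smul_mem _ (S.neg_mem hH)
            rw [norm_st h ψ S hS W hN _ _ h4, ← h.line]
            congr 2
            push_cast
            ring
        rw [act_iter h, hj n, mul_div_cancel₀ _ hn0.ne']
    · exact ⟨0, fun h' => absurd h' hn⟩
  choose U hU using h6
  have h7 : Tendsto (fun n : ℕ => (n : ℝ) • U n) atTop (𝓝 (t • (W - H))) := by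
    rw [tendsto_iff_norm_sub_tendsto_zero]
    have h8 : Tendsto (fun n : ℕ => D * ‖t • W‖ * ‖t • H‖ * (n : ℝ)⁻¹) atTop (𝓝 0) := by
      have := (tendsto_inv_atTop_nhds_zero_nat (𝕜 := ℝ)).const_mul (D * ‖t • W‖ * ‖t • H‖)
      simpa using this
    refine squeeze_zero' (Eventually.of_forall fun n => norm_nonneg _) ?_ h8
    filter_upwards [hev] with n hn
    exact (hU n hn).1
  have h9 := ((h.cont ψ).tendsto (t • (W - H))).comp h7
  refine tendsto_nhds_unique h9 (tendsto_const_nhds.congr' ?_)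
  filter_upwards [hev] with n hn
  exact ((hU n hn).2).symm

theorem t_FIN (hsub : S_SUB) (hsmall : S_SMALL) (hstay : S_STAY) : S_FIN := by
  intro V M _ _ _ _ br Φ h p W hW hnorm
  obtain ⟨δ₀, hδ₀, hN⟩ := hnorm
  obtain ⟨D, ρ, hD, hρ, hl⟩ := loc' h
  obtain ⟨ρ₀, hρ₀, hsm⟩ := hsmall V M br Φ h p
  -- the norm of the adjoint action
  obtain ⟨δ₂, hδ₂, hexp⟩ : ∃ δ₂ : ℝ, 0 < δ₂ ∧ ∀ X : V, ‖X‖ ≤ δ₂ →
      ‖NormedSpace.exp (br (-X))‖ ≤ 2 := by
    letI : NormedAlgebra ℚ (V →L[ℝ] V) := NormedAlgebra.restrictScalars ℚ ℝ (V →L[ℝ] V)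
    have hc : Continuous fun X : V => ‖NormedSpace.exp (br (-X))‖ :=
      (NormedSpace.exp_continuous (𝔸 := V →L[ℝ] V)).norm.comp (br.continuous.comp continuous_neg)
    have h0 : ‖NormedSpace.exp (br (-(0 : V)))‖ < 2 := by
      rw [neg_zero, map_zero, NormedSpace.exp_zero]
      exact lt_of_le_of_lt ContinuousLinearMap.norm_id_le (by norm_num)
    have := (hc.tendsto 0).eventually_lt_const h0
    obtain ⟨ε, hε, hb⟩ := Metric.eventually_nhds_iff.mp this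
    refine ⟨ε / 2, by positivity, fun X hX => (hb ?_).le⟩
    rw [dist_zero_right]
    linarith
  set ρ₁ : ℝ := min ρ (ρ₀ / 4) with hρ₁
  have hρ₁0 : 0 < ρ₁ := lt_min hρ (by positivity)
  have hρ₁a : ρ₁ ≤ ρ := min_le_left _ _
  have hρ₁b : ρ₁ ≤ ρ₀ / 4 := min_le_right _ _
  obtain ⟨r, hr, hr1, hr2, hr3⟩ : ∃ r : ℝ, 0 < r ∧ 3 * r ≤ ρ ∧ D * r ≤ 1 ∧
      8 * (r * (1 + D * ρ₁)) ≤ ρ₁ := by
    refine ⟨min (ρ / 3) (min (1 / (D + 1)) (ρ₁ / (8 * (1 + D * ρ₁)))), ?_, ?_, ?_, ?_⟩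
    · exact lt_min (by positivity) (lt_min (by positivity) (by positivity))
    · have := min_le_left (ρ / 3) (min (1 / (D + 1)) (ρ₁ / (8 * (1 + D * ρ₁))))
      linarith
    · have h1 := (min_le_right (ρ / 3) (min (1 / (D + 1)) (ρ₁ / (8 * (1 + D * ρ₁))))).trans
        (min_le_left _ _)
      calc D * _ ≤ D * (1 / (D + 1)) := mul_le_mul_of_nonneg_left h1 hD
        _ ≤ 1 := by
          rw [mul_one_div, div_le_one (by positivity)]
          linarith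
    · have h1 := (min_le_right (ρ / 3) (min (1 / (D + 1)) (ρ₁ / (8 * (1 + D * ρ₁))))).trans
        (min_le_right _ _)
      have h2 : 0 < 8 * (1 + D * ρ₁) := by positivity
      rw [le_div_iff₀ h2] at h1
      linarith
  obtain ⟨δ₁, hδ₁, hst⟩ := hstay V M br Φ h p W hW r hr
  refine ⟨min (min δ₀ δ₁) (min δ₂ r), lt_min (lt_min hδ₀ hδ₁) (lt_min hδ₂ hr), ?_⟩
  intro X hX
  have hX0 : ‖X‖ ≤ δ₀ := hX.trans ((min_le_left _ _).trans (min_le_left _ _))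
  have hX1 : ‖X‖ ≤ δ₁ := hX.trans ((min_le_left _ _).trans (min_le_right _ _))
  have hX2 : ‖X‖ ≤ δ₂ := hX.trans ((min_le_right _ _).trans (min_le_left _ _))
  have hX3 : ‖X‖ ≤ r := hX.trans ((min_le_right _ _).trans (min_le_right _ _))
  set ψ := Φ X p with hψ
  obtain ⟨S, hS⟩ := hsub V M br Φ h ψ
  have hNS : ∀ Z ∈ S, br W Z ∈ S := by
    intro Z hZ
    have h1 : Z ∈ st Φ ψ := by rw [← hS]; exact hZ
    have h2 := hN X hX0 Z h1
    have h3 : br W Z ∈ (S : Set V) := by rw [hS]; exact h2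
    exact h3
  -- small elements
  have hsm2 : ∀ Y : V, ‖Y‖ ≤ ρ₀ / 2 → Φ Y ψ = ψ → Y ∈ S := by
    intro Y hY hYψ
    have h1 : NormedSpace.exp (br (-X)) Y ∈ st Φ p := by
      apply hsm
      · calc ‖NormedSpace.exp (br (-X)) Y‖ ≤ ‖NormedSpace.exp (br (-X))‖ * ‖Y‖ :=
              ContinuousLinearMap.le_opNorm _ _
          _ ≤ 2 * (ρ₀ / 2) := mul_le_mul (hexp X hX2) hY (norm_nonneg _) (by norm_num)
          _ = ρ₀ := by ring
      · have h2 := h.conj (-X) Y ψ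
        rw [hYψ, hψ, neg_act h] at h2
        exact h2.symm
    have h2 : Y ∈ st Φ ψ := (st_conj h X Y p).mpr h1
    rw [← hS] at h2
    exact h2
  by_contra hWn
  have hWS : W ∉ S := by
    intro h1
    apply hWn
    rw [← hS]
    exact h1
  -- a nearest point
  have hclosed : IsClosed (S : Set V) := S.closed_of_finiteDimensional
  haveI : ProperSpace V := FiniteDimensional.proper ℝ V
  obtain ⟨H, hH, hHd⟩ := hclosed.exists_infDist_eq_dist ⟨0, S.zero_mem⟩ W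
  have hnear : ∀ H' ∈ S, ‖W - H‖ ≤ ‖W - H'‖ := by
    intro H' hH'
    rw [← dist_eq_norm, ← dist_eq_norm, ← hHd]
    exact Metric.infDist_le_dist_of_mem hH'
  set v := W - H with hv
  have hv0 : 0 < ‖v‖ := by
    rw [norm_pos_iff, hv, sub_ne_zero]
    rintro rfl
    exact hWS hH
  set t := ρ₁ / ‖v‖ with ht
  have ht0 : 0 < t := by positivity
  have htv : ‖t • v‖ = ρ₁ := by
    rw [norm_smul, Real.norm_of_nonneg ht0.le, ht]
    field_simp
  have h1 : Φ (t • v) ψ = Φ (t • W) ψ := claimA h ψ S hS W hNS H hH t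
  obtain ⟨Y, hY, hY2⟩ := hst X hX1 t
  have h2 : p = Φ (-X) ψ := by rw [hψ, neg_act h]
  obtain ⟨Y', hY', hY'2⟩ := hl Y (-X) (by linarith) (by rw [norm_neg]; linarith)
  rw [norm_neg] at hY'
  have h3 : Φ (t • v) ψ = Φ Y' ψ := by
    rw [h1, hY2, ← hY'2, ← h2]
  have hY'n : ‖Y'‖ ≤ 3 * r := by
    have e1 : Y' = (Y' - Y - (-X)) + Y - X := by abel
    have e2 : D * ‖Y‖ * ‖X‖ ≤ r := by
      calc D * ‖Y‖ * ‖X‖ ≤ D * r * r := by gcongr
        _ ≤ 1 * r := by gcongr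
        _ = r := one_mul r
    calc ‖Y'‖ = ‖(Y' - Y - (-X)) + Y - X‖ := by rw [← e1]
      _ ≤ ‖(Y' - Y - (-X)) + Y‖ + ‖X‖ := norm_sub_le _ _
      _ ≤ ‖Y' - Y - (-X)‖ + ‖Y‖ + ‖X‖ := by gcongr; exact norm_add_le _ _
      _ ≤ r + r + r := by linarith
      _ = 3 * r := by ring
  obtain ⟨Z, hZ, hZ2⟩ := hl (-Y') (t • v) (by rw [norm_neg]; linarith) (by rw [htv]; exact hρ₁a)
  have h4 : Φ Z ψ = ψ := by
    rw [← hZ2, h3, neg_act h]
  rw [norm_neg, htv] at hZ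
  have h5 : D * ‖Y'‖ * ρ₁ ≤ 3 * (r * (D * ρ₁)) := by
    calc D * ‖Y'‖ * ρ₁ ≤ D * (3 * r) * ρ₁ := by gcongr
      _ = _ := by ring
  have h6 : 3 * r + 3 * (r * (D * ρ₁)) < ρ₁ / 2 := by
    have : 8 * (r * (1 + D * ρ₁)) = 8 * r + 8 * (r * (D * ρ₁)) := by ring
    have : 0 ≤ r * (D * ρ₁) := by positivity
    linarith
  have h7 : ‖t • v - Z‖ < ρ₁ / 2 := by
    have e1 : t • v - Z = -(Z - (-Y') - t • v) + Y' := by abel
    rw [e1]
    calc ‖-(Z - (-Y') - t • v) + Y'‖ ≤ ‖-(Z - (-Y') - t • v)‖ + ‖Y'‖ := norm_add_le _ _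
      _ = ‖Z - (-Y') - t • v‖ + ‖Y'‖ := by rw [norm_neg]
      _ < ρ₁ / 2 := by linarith
  have h8 : Z ∈ S := by
    apply hsm2 _ _ h4
    have e1 : Z = t • v - (t • v - Z) := by abel
    calc ‖Z‖ = ‖t • v - (t • v - Z)‖ := by rw [← e1]
      _ ≤ ‖t • v‖ + ‖t • v - Z‖ := norm_sub_le _ _
      _ ≤ ρ₀ / 2 := by rw [htv]; linarith
  have h9 := hnear (H + t⁻¹ • Z) (S.add_mem hH (S.smul_mem _ h8))
  have h10 : W - (H + t⁻¹ • Z) = t⁻¹ • (t • v - Z) := by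
    rw [smul_sub, smul_smul, inv_mul_cancel₀ ht0.ne', one_smul, hv]
    abel
  rw [h10, norm_smul, norm_inv, Real.norm_of_nonneg ht0.le] at h9
  have h11 : t⁻¹ * ‖t • v - Z‖ < t⁻¹ * (ρ₁ / 2) := by
    apply mul_lt_mul_of_pos_left h7
    positivity
  have h12 : t⁻¹ * (ρ₁ / 2) = ‖v‖ / 2 := by
    rw [ht]
    field_simp
  rw [h12] at h11
  linarith

end Pool.Agent.W215.LX
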