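import Mathlib
import Pool.Agent.W42.RG.Defs
import Pool.Agent.W215.LX.Iso
import Pool.Agent.W215.LX.DER

set_option autoImplicit false

/-!
Part MAUT: the Mautner phenomenon for isometric actions.
-/

namespace Pool.Agent.W215.LX

open Pool.Agent.W42.RG Filter Topology

lemma der_mem {V : Type} [NormedAddCommGroup V] [NormedSpace ℝ V] [FiniteDimensional ℝ V]
    (A : V →L[ℝ] V) (S : Submodule ℝ V) (Z : V) (s₀ : ℝ) (h0 : 0 < s₀)
    (h : ∀ s : ℝ, |s| ≤ s₀ → NormedSpace.exp (s • A) Z ∈ S) : A Z ∈ S := by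
  refine t_DER V (A : V →ₗ[ℝ] V) S Z s₀ h0 fun s hs => ⟨_, h s hs, ?_⟩
  have h1 : HasSum (fun n : ℕ => ((n.factorial : ℝ)⁻¹) • (s • A) ^ n) (NormedSpace.exp (s • A)) :=
    NormedSpace.exp_series_hasSum_exp' (𝕂 := ℝ) (s • A)
  have h2 := h1.mapL (ContinuousLinearMap.apply ℝ V Z)
  have h4 : HasSum (fun n : ℕ => ((n.factorial : ℝ)⁻¹) • (((s • A) ^ n) Z))
      (NormedSpace.exp (s • A) Z) := h2
  have h3 : ∀ l : ℕ, ((s • (A : V →ₗ[ℝ] V)) ^ l) Z = ((s • A) ^ l) Z := by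
    intro l
    induction l with
    | zero => simp
    | succ l ih =>
      rw [pow_succ', pow_succ', Module.End.mul_apply, ih]
      rfl
  simp_rw [h3]
  exact h4

theorem t_MAUT (hsub : S_SUB) (hstay : S_STAY) (hrec : S_REC) (hnorm : S_NORM) (hfin : S_FIN) :
    S_MAUT := by
  intro V M _ _ _ _ br Φ h p K hK hKp W hW hnil
  obtain ⟨c, hc⟩ := hnil
  -- (a)
  have ha : ∀ (X Z : V), Z ∈ K → Z ∈ st Φ (Φ X p) := by
    intro X Z hZ
    rw [st_conj h]
    intro t
    exact hKp _ (K.smul_mem _ (exp_mem _ K (fun Y hY => hK _ Y hY) Z hZ))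
  -- (b)
  obtain ⟨δ, hδ, hst⟩ := hstay V M br Φ h p W hW 1 one_pos
  have hb : ∀ X : V, ‖X‖ ≤ δ → ∀ Z ∈ st Φ (Φ X p), br W Z ∈ st Φ (Φ X p) := by
    intro X hX
    obtain ⟨t, ht1, ht2⟩ := hrec V M br Φ h p (Φ X p) W 1 (hst X hX)
    exact hnorm V M br Φ h (Φ X p) W t ht1 ht2 ⟨c, fun Z => ha X _ (hc Z)⟩
  -- (c)
  obtain ⟨δ', hδ', hc'⟩ := hfin V M br Φ h p W hW ⟨δ, hδ, hb⟩
  -- (d)
  obtain ⟨D, ρ, hD, hρ, hl⟩ := loc' h
  let S : Submodule ℝ V :=
    { carrier := {Z | ∃ r : ℝ, 0 < r ∧ ∀ X : V, ‖X‖ ≤ r → Z ∈ st Φ (Φ X p)}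
      zero_mem' := ⟨1, one_pos, fun X _ => ha X 0 K.zero_mem⟩
      add_mem' := by
        rintro Z Z' ⟨r, hr, h1⟩ ⟨r', hr', h2⟩
        refine ⟨min r r', lt_min hr hr', fun X hX => ?_⟩
        obtain ⟨T, hT⟩ := hsub V M br Φ h (Φ X p)
        have e1 : Z ∈ T := by
          have := h1 X (hX.trans (min_le_left _ _))
          rw [← hT] at this; exact this
        have e2 : Z' ∈ T := by
          have := h2 X (hX.trans (min_le_right _ _))
          rw [← hT] at this; exact this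
        have e3 : Z + Z' ∈ (T : Set V) := T.add_mem e1 e2
        rw [hT] at e3
        exact e3
      smul_mem' := by
        rintro a Z ⟨r, hr, h1⟩
        refine ⟨r, hr, fun X hX => ?_⟩
        obtain ⟨T, hT⟩ := hsub V M br Φ h (Φ X p)
        have e1 : Z ∈ T := by
          have := h1 X hX
          rw [← hT] at this; exact this
        have e3 : a • Z ∈ (T : Set V) := T.smul_mem a e1
        rw [hT] at e3
        exact e3 }
  refine ⟨S, ?_, ⟨δ', hδ', hc'⟩, fun Z hZ => ⟨1, one_pos, fun X _ => ha X Z hZ⟩, ?_⟩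
  · rintro Y Z ⟨r, hr, h1⟩
    set r' : ℝ := min (r / 2) ρ with hr'
    have hr'0 : 0 < r' := lt_min (by positivity) hρ
    have hr'a : r' ≤ r / 2 := min_le_left _ _
    have hr'b : r' ≤ ρ := min_le_right _ _
    refine ⟨r', hr'0, fun X hX => ?_⟩
    obtain ⟨T, hT⟩ := hsub V M br Φ h (Φ X p)
    have key : br Y Z ∈ T := by
      set s₀ : ℝ := min (ρ / (‖Y‖ + 1)) (r / 2 / ((‖Y‖ + 1) * (1 + D * ρ))) with hs₀
      have hs0 : 0 < s₀ := lt_min (by positivity) (by positivity)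
      refine der_mem (br Y) T Z s₀ hs0 fun s hs => ?_
      have hsY : |s| * (‖Y‖ + 1) ≤ ρ := by
        have := hs.trans (min_le_left _ _)
        rwa [le_div_iff₀ (by positivity)] at this
      have hsY2 : |s| * ((‖Y‖ + 1) * (1 + D * ρ)) ≤ r / 2 := by
        have := hs.trans (min_le_right _ _)
        rwa [le_div_iff₀ (by positivity)] at this
      have hsYn : ‖-(s • Y)‖ ≤ |s| * (‖Y‖ + 1) := by
        rw [norm_neg, norm_smul, Real.norm_eq_abs]
        exact mul_le_mul_of_nonneg_left (by linarith) (abs_nonneg _)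
      obtain ⟨U, hU, hU2⟩ := hl (-(s • Y)) X (hsYn.trans hsY) (hX.trans hr'b)
      have hUn : ‖U‖ ≤ r := by
        have e1 : U = (U - -(s • Y) - X) + -(s • Y) + X := by abel
        have e2 : D * ‖-(s • Y)‖ * ‖X‖ ≤ D * (|s| * (‖Y‖ + 1)) * ρ := by
          have := hX.trans hr'b
          gcongr
        calc ‖U‖ = ‖(U - -(s • Y) - X) + -(s • Y) + X‖ := by rw [← e1]
          _ ≤ ‖(U - -(s • Y) - X) + -(s • Y)‖ + ‖X‖ := norm_add_le _ _
          _ ≤ ‖U - -(s • Y) - X‖ + ‖-(s • Y)‖ + ‖X‖ := by gcongr; exact norm_add_le _ _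
          _ ≤ D * (|s| * (‖Y‖ + 1)) * ρ + |s| * (‖Y‖ + 1) + r / 2 := by
            have := hX.trans hr'a
            gcongr
            exact hU.trans e2
          _ = |s| * ((‖Y‖ + 1) * (1 + D * ρ)) + r / 2 := by ring
          _ ≤ r := by linarith
      have h2 := h1 U hUn
      have h3 : NormedSpace.exp (s • br Y) Z ∈ (T : Set V) := by
        rw [hT]
        intro t
        have h4 := h.conj (s • Y) (t • Z) (Φ (-(s • Y)) (Φ X p))
        rw [act_neg h, hU2, h2 t, ← hU2, act_neg h, map_smul, map_smul] at h4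
        exact h4.symm
      exact h3
    have e3 : br Y Z ∈ (T : Set V) := key
    rw [hT] at e3
    exact e3
  · rintro Z ⟨r, hr, h1⟩
    have h2 := h1 0 (by rw [norm_zero]; exact hr.le) 1
    rw [one_smul, h.zero] at h2
    exact h2

end Pool.Agent.W215.LX
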